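import Pool.Agent.Q129.NLTree

set_option autoImplicit false

/-!
# The maximum degree of trees with given neighbor-locating chromatic number

Every finite tree with neighbor-locating chromatic number `k ≥ 2` has maximum degree at most
`(k - 1) ^ 2`.
-/

theorem Pool.Agent.Results.MP_16ddc9_co.MaxDegree.result :
    ∀ k : ℕ, 2 ≤ k → ∀ (V : Type) [Fintype V] (T : SimpleGraph V) [DecidableRel T.Adj],
      T.IsTree → Q129.NeighborLocating.chiNL T = k → T.maxDegree ≤ (k - 1) ^ 2 := by
  rintro k hk V _ T _ hT rfl
  exact Q129.NLTree.maxDegree_le T hT hk
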